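import Mathlib

/-!
# Positive matrices needing exactly `L` alternating scalings (MP_407c22_co)

No positive square matrix requires three or more alternating scalings.
-/

set_option autoImplicit false

namespace Pool.Agent.Results.MP_407c22_co.AtMostTwoScalings

open Finset

variable {n : ℕ}

/-- The row scaling `R(A)`: every row is divided by its sum. -/
noncomputable def rowScale (A : Matrix (Fin n) (Fin n) ℝ) : Matrix (Fin n) (Fin n) ℝ :=
  Matrix.of fun i j => A i j / ∑ k, A i k

/-- The column scaling `C(A)`: every column is divided by its sum. -/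
noncomputable def colScale (A : Matrix (Fin n) (Fin n) ℝ) : Matrix (Fin n) (Fin n) ℝ :=
  Matrix.of fun i j => A i j / ∑ k, A k j

/-- The alternate scaling sequence: `A_0 = A`, `A_(2k+1) = R(A_(2k))`, `A_(2k+2) = C(A_(2k+1))`. -/
noncomputable def altSeq (A : Matrix (Fin n) (Fin n) ℝ) : ℕ → Matrix (Fin n) (Fin n) ℝ
  | 0 => A
  | k + 1 => if Even k then rowScale (altSeq A k) else colScale (altSeq A k)

/-- Row stochastic. -/
def RowStoch (A : Matrix (Fin n) (Fin n) ℝ) : Prop := ∀ i, ∑ j, A i j = 1

/-- Column stochastic. -/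
def ColStoch (A : Matrix (Fin n) (Fin n) ℝ) : Prop := ∀ j, ∑ i, A i j = 1

/-- Doubly stochastic. -/
def DoublyStoch (A : Matrix (Fin n) (Fin n) ℝ) : Prop := RowStoch A ∧ ColStoch A

open Classical in
/-- `A` requires exactly `L` scalings: there is a least index `N` for which `A_N` is doubly
stochastic, and `L` is the number of `k` with `1 ≤ k ≤ N` and `A_k ≠ A_(k-1)`. -/
def RequiresExactly (A : Matrix (Fin n) (Fin n) ℝ) (L : ℕ) : Prop :=
  ∃ N : ℕ, DoublyStoch (altSeq A N) ∧ (∀ m < N, ¬ DoublyStoch (altSeq A m)) ∧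
    ((Finset.Icc 1 N).filter fun k => altSeq A k ≠ altSeq A (k - 1)).card = L

lemma rowScale_pos {A : Matrix (Fin n) (Fin n) ℝ} (hA : ∀ i j, 0 < A i j) (i j : Fin n) :
    0 < rowScale A i j := by
  rw [rowScale, Matrix.of_apply]
  exact div_pos (hA i j) (Finset.sum_pos (fun k _ => hA i k) ⟨j, Finset.mem_univ _⟩)

lemma colScale_pos {A : Matrix (Fin n) (Fin n) ℝ} (hA : ∀ i j, 0 < A i j) (i j : Fin n) :
    0 < colScale A i j := by
  rw [colScale, Matrix.of_apply]
  exact div_pos (hA i j) (Finset.sum_pos (fun k _ => hA k j) ⟨i, Finset.mem_univ _⟩)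

lemma altSeq_pos {A : Matrix (Fin n) (Fin n) ℝ} (hA : ∀ i j, 0 < A i j) (k : ℕ) :
    ∀ i j, 0 < altSeq A k i j := by
  induction k with
  | zero => exact hA
  | succ k ih =>
    intro i j
    rw [altSeq]
    split_ifs
    · exact rowScale_pos ih i j
    · exact colScale_pos ih i j

lemma rowStoch_rowScale {A : Matrix (Fin n) (Fin n) ℝ} (hA : ∀ i j, 0 < A i j) :
    RowStoch (rowScale A) := by
  intro i
  have h : 0 < ∑ k, A i k := Finset.sum_pos (fun k _ => hA i k) ⟨i, Finset.mem_univ _⟩
  simp only [rowScale, Matrix.of_apply]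
  rw [← Finset.sum_div]
  exact div_self h.ne'

lemma colStoch_colScale {A : Matrix (Fin n) (Fin n) ℝ} (hA : ∀ i j, 0 < A i j) :
    ColStoch (colScale A) := by
  intro j
  have h : 0 < ∑ k, A k j := Finset.sum_pos (fun k _ => hA k j) ⟨j, Finset.mem_univ _⟩
  simp only [colScale, Matrix.of_apply]
  rw [← Finset.sum_div]
  exact div_self h.ne'

/-- Positive numbers `c_j` with `∑ c_j = n = ∑ 1 / c_j` are all `1`. -/
lemma all_one {c : Fin n → ℝ} (hc : ∀ j, 0 < c j) (h1 : ∑ j, c j = n) (h2 : ∑ j, 1 / c j = n) :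
    ∀ j, c j = 1 := by
  have h3 : ∑ j, (1 - c j) ^ 2 / c j = 0 := by
    have e : ∀ j, (1 - c j) ^ 2 / c j = 1 / c j + c j - 2 := by
      intro j
      have := (hc j).ne'
      field_simp
      ring
    rw [Finset.sum_congr rfl fun j _ => e j, Finset.sum_sub_distrib, Finset.sum_add_distrib, h1, h2]
    simp
    ring
  intro j
  have h4 := (Finset.sum_eq_zero_iff_of_nonneg fun j _ =>
    div_nonneg (sq_nonneg (1 - c j)) (hc j).le).1 h3 j (Finset.mem_univ _)
  rcases div_eq_zero_iff.1 h4 with h5 | h5
  · have := pow_eq_zero_iff (two_ne_zero) |>.1 h5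
    linarith
  · exact absurd h5 (hc j).ne'

/-- If `X` is positive and column stochastic and `C(R(X))` is doubly stochastic then `R(X)` is
doubly stochastic. -/
lemma key {X : Matrix (Fin n) (Fin n) ℝ} (hX : ∀ i j, 0 < X i j) (hcol : ColStoch X)
    (hds : RowStoch (colScale (rowScale X))) : ColStoch (rowScale X) := by
  set Y := rowScale X with hY
  have hYpos := rowScale_pos hX
  rw [← hY] at hYpos
  have hYrow : RowStoch Y := rowStoch_rowScale hX
  set c : Fin n → ℝ := fun j => ∑ i, Y i j with hc
  have hcpos : ∀ j, 0 < c j := fun j =>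
    Finset.sum_pos (fun i _ => hYpos i j) ⟨j, Finset.mem_univ _⟩
  have h1 : ∑ j, c j = n := by
    rw [hc]
    simp only
    rw [Finset.sum_comm, Finset.sum_congr rfl fun i _ => hYrow i]
    simp
  have hXY : ∀ i j, X i j = (∑ k, X i k) * Y i j := by
    intro i j
    have h : 0 < ∑ k, X i k := Finset.sum_pos (fun k _ => hX i k) ⟨j, Finset.mem_univ _⟩
    rw [hY, rowScale, Matrix.of_apply]
    field_simp
  have h2 : ∑ j, 1 / c j = n := by
    have h3 : ∀ j, 1 / c j = ∑ i, (∑ k, X i k) * (Y i j / c j) := by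
      intro j
      have h4 : ∑ i, (∑ k, X i k) * Y i j = 1 := by
        rw [← hcol j]
        exact Finset.sum_congr rfl fun i _ => (hXY i j).symm
      rw [← h4, Finset.sum_div]
      exact Finset.sum_congr rfl fun i _ => by rw [mul_div_assoc]
    rw [Finset.sum_congr rfl fun j _ => h3 j, Finset.sum_comm]
    have h5 : ∀ i, ∑ j, (∑ k, X i k) * (Y i j / c j) = ∑ k, X i k := by
      intro i
      rw [← Finset.mul_sum]
      have := hds i
      simp only [colScale, Matrix.of_apply] at this
      rw [this, mul_one]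
    rw [Finset.sum_congr rfl fun i _ => h5 i]
    calc ∑ i, ∑ k, X i k = ∑ k, ∑ i, X i k := Finset.sum_comm
      _ = ∑ k : Fin n, (1 : ℝ) := Finset.sum_congr rfl fun k _ => hcol k
      _ = n := by simp
  exact all_one hcpos h1 h2

lemma rowScale_transpose (A : Matrix (Fin n) (Fin n) ℝ) :
    rowScale A.transpose = (colScale A).transpose := by
  ext i j
  simp [rowScale, colScale, Matrix.transpose_apply]

lemma colScale_transpose (A : Matrix (Fin n) (Fin n) ℝ) :
    colScale A.transpose = (rowScale A).transpose := by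
  ext i j
  simp [rowScale, colScale, Matrix.transpose_apply]

/-- The transposed version of `key`. -/
lemma key' {X : Matrix (Fin n) (Fin n) ℝ} (hX : ∀ i j, 0 < X i j) (hrow : RowStoch X)
    (hds : ColStoch (rowScale (colScale X))) : RowStoch (colScale X) := by
  have h := key (X := X.transpose) (fun i j => hX j i) hrow (by
    rw [rowScale_transpose, colScale_transpose]
    exact hds)
  rw [rowScale_transpose] at h
  exact h

/-- The first doubly stochastic term of the alternate scaling sequence has index at most two. -/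
lemma index_le_two {A : Matrix (Fin n) (Fin n) ℝ} (hA : ∀ i j, 0 < A i j) {N : ℕ}
    (hN : DoublyStoch (altSeq A N)) (hmin : ∀ m < N, ¬ DoublyStoch (altSeq A m)) : N ≤ 2 := by
  by_contra hlt
  obtain ⟨m, rfl⟩ : ∃ m, N = m + 1 + 1 + 1 := ⟨N - 3, by omega⟩
  have hnot := hmin (m + 1 + 1) (by omega)
  have hpos := altSeq_pos hA m
  have hpos1 := altSeq_pos hA (m + 1)
  by_cases hm : Even m
  · -- `A_(m+1) = R(..)` is row stochastic, `A_(m+2) = C(A_(m+1))`, `A_(m+3) = R(A_(m+2))`
    have hm1 : ¬ Even (m + 1) := by rw [Nat.even_add_one]; exact not_not.2 hm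
    have hm2 : Even (m + 1 + 1) := by rw [Nat.even_add_one]; exact hm1
    have e1 : altSeq A (m + 1) = rowScale (altSeq A m) := by rw [altSeq, if_pos hm]
    have e2 : altSeq A (m + 1 + 1) = colScale (altSeq A (m + 1)) := by rw [altSeq, if_neg hm1]
    have e3 : altSeq A (m + 1 + 1 + 1) = rowScale (altSeq A (m + 1 + 1)) := by
      rw [altSeq, if_pos hm2]
    have hrow : RowStoch (altSeq A (m + 1)) := by rw [e1]; exact rowStoch_rowScale hpos
    apply hnot
    rw [e2]
    refine ⟨key' hpos1 hrow ?_, colStoch_colScale hpos1⟩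
    rw [← e2, ← e3]
    exact hN.2
  · have hm1 : Even (m + 1) := by rw [Nat.even_add_one]; exact hm
    have hm2 : ¬ Even (m + 1 + 1) := by rw [Nat.even_add_one]; exact not_not.2 hm1
    have e1 : altSeq A (m + 1) = colScale (altSeq A m) := by rw [altSeq, if_neg hm]
    have e2 : altSeq A (m + 1 + 1) = rowScale (altSeq A (m + 1)) := by rw [altSeq, if_pos hm1]
    have e3 : altSeq A (m + 1 + 1 + 1) = colScale (altSeq A (m + 1 + 1)) := by
      rw [altSeq, if_neg hm2]
    have hcol : ColStoch (altSeq A (m + 1)) := by rw [e1]; exact colStoch_colScale hpos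
    apply hnot
    rw [e2]
    refine ⟨rowStoch_rowScale hpos1, key hpos1 hcol ?_⟩
    rw [← e2, ← e3]
    exact hN.1

/-- For no `n` and no `L ≥ 3` is there a positive `n × n` matrix which requires exactly `L`
scalings. -/
theorem result (n L : ℕ) (hL : 3 ≤ L) (A : Matrix (Fin n) (Fin n) ℝ) (hA : ∀ i j, 0 < A i j) :
    ¬ RequiresExactly A L := by
  classical
  rintro ⟨N, hN, hmin, hcard⟩
  have h1 := index_le_two hA hN hmin
  have h2 : ((Finset.Icc 1 N).filter fun k => altSeq A k ≠ altSeq A (k - 1)).card ≤ N := by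
    refine (Finset.card_filter_le _ _).trans ?_
    simp
  have h3 : ((Finset.Icc 1 N).filter fun k => altSeq A k ≠ altSeq A (k - 1)).card = L := by
    rw [← hcard]
  omega

end Pool.Agent.Results.MP_407c22_co.AtMostTwoScalings
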